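import Pool.Agent.Helper2.MON.Defs
import Pool.Agent.Helper40.ZO.JCA

/-!
A matrix with an eigenvalue that is no root of unity has a nonzero logarithm that kills every tensor fixed by a power
of the matrix.
-/

set_option linter.unusedSectionVars false

open Matrix

namespace MH

section aux

/-- an additive function on the nonzero complex numbers that does not vanish at a given element of infinite order -/
private theorem exists_phi99 {l : ℂ} (hl : l ≠ 0) (hne : ∀ N : ℕ, 0 < N → l ^ N ≠ 1) :
    ∃ φ : Additive ℂˣ →+ ℚ, φ (Additive.ofMul (Units.mk0 l hl)) ≠ 0 := by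
  set W : Submodule ℚ ℂ := Submodule.span ℚ {2 * (Real.pi : ℂ) * Complex.I} with hW
  have hlog : W.mkQ (Complex.log l) ≠ 0 := by
    rw [Submodule.mkQ_apply, Ne, Submodule.Quotient.mk_eq_zero, hW, Submodule.mem_span_singleton]
    rintro ⟨q, hq⟩
    refine hne q.den q.den_pos ?_
    rw [← Complex.exp_log hl, ← Complex.exp_nat_mul, ← hq]
    have h1 : (q.den : ℂ) * (q • (2 * (Real.pi : ℂ) * Complex.I)) = (q.num : ℤ) * (2 * (Real.pi : ℂ) * Complex.I) := by
      rw [Rat.smul_def, ← mul_assoc]
      congr 1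
      have h2 := Rat.mul_den_eq_num q
      have h3 : ((q * q.den : ℚ) : ℂ) = ((q.num : ℚ) : ℂ) := by rw [h2]
      push_cast at h3
      rw [mul_comm]
      exact h3
    rw [h1]
    exact Complex.exp_int_mul_two_pi_mul_I q.num
  obtain ⟨ψ, hψ⟩ : ∃ ψ : Module.Dual ℚ (ℂ ⧸ W), ψ (W.mkQ (Complex.log l)) ≠ 0 := by
    by_contra hcon
    push Not at hcon
    exact hlog ((Module.forall_dual_apply_eq_zero_iff ℚ _).1 hcon)
  refine ⟨{ toFun := fun z => ψ (W.mkQ (Complex.log ((Additive.toMul z : ℂˣ) : ℂ)))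
            map_zero' := ?_
            map_add' := ?_ }, hψ⟩
  · rw [toMul_zero, Units.val_one, Complex.log_one, map_zero, map_zero]
  · intro z w
    rw [toMul_add, Units.val_mul, ← map_add, ← map_add]
    congr 1
    rw [Submodule.mkQ_apply, Submodule.mkQ_apply, Submodule.Quotient.eq, hW, Submodule.mem_span_singleton]
    have hz : ((Additive.toMul z : ℂˣ) : ℂ) ≠ 0 := Units.ne_zero _
    have hw : ((Additive.toMul w : ℂˣ) : ℂ) ≠ 0 := Units.ne_zero _
    have h1 : Complex.exp (Complex.log (((Additive.toMul z : ℂˣ) : ℂ) * ((Additive.toMul w : ℂˣ) : ℂ))) =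
        Complex.exp (Complex.log ((Additive.toMul z : ℂˣ) : ℂ) + Complex.log ((Additive.toMul w : ℂˣ) : ℂ)) := by
      rw [Complex.exp_add, Complex.exp_log hz, Complex.exp_log hw, Complex.exp_log (mul_ne_zero hz hw)]
    obtain ⟨k, hk⟩ := Complex.exp_eq_exp_iff_exists_int.1 h1
    refine ⟨(k : ℚ), ?_⟩
    rw [hk, add_sub_cancel_left, Rat.smul_def]
    push_cast
    ring

/-- an exponential that is a polynomial -/
private theorem poly_exp99 {q : Polynomial ℂ} {c τ : ℂ} (hτ : τ ≠ 0) (h : ∀ j : ℕ, c ^ j * q.eval (j : ℂ) = τ) :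
    c = 1 := by
  have hc : c ≠ 0 := by
    rintro rfl
    have := h 1
    simp at this
    exact hτ this.symm
  have hq : q ≠ 0 := by
    rintro rfl
    have := h 0
    simp at this
    exact hτ this.symm
  have h1 : Polynomial.C c * q.comp (Polynomial.X + 1) - q = 0 := by
    refine Polynomial.eq_zero_of_infinite_isRoot _ ?_
    refine Set.Infinite.mono (s := Set.range (fun j : ℕ => (j : ℂ))) ?_
      (Set.infinite_range_of_injective Nat.cast_injective)
    rintro _ ⟨j, rfl⟩
    change Polynomial.eval _ _ = 0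
    rw [Polynomial.eval_sub, Polynomial.eval_mul, Polynomial.eval_C, Polynomial.eval_comp, Polynomial.eval_add,
      Polynomial.eval_X, Polynomial.eval_one, sub_eq_zero]
    have h2 := h (j + 1)
    rw [← h j, pow_succ, Nat.cast_add, Nat.cast_one, mul_assoc] at h2
    exact mul_left_cancel₀ (pow_ne_zero j hc) h2
  have h3 : (Polynomial.C c * q.comp (Polynomial.X + 1)).leadingCoeff = q.leadingCoeff := by
    rw [sub_eq_zero.1 h1]
  have h4 : (Polynomial.X + 1 : Polynomial ℂ).natDegree = 1 := by
    have := Polynomial.natDegree_X_add_C (1 : ℂ)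
    rwa [map_one] at this
  have h5 : (Polynomial.X + 1 : Polynomial ℂ).leadingCoeff = 1 := by
    have := Polynomial.leadingCoeff_X_add_C (1 : ℂ)
    rwa [map_one] at this
  rw [Polynomial.leadingCoeff_mul, Polynomial.leadingCoeff_C, Polynomial.leadingCoeff_comp (by rw [h4]; exact one_ne_zero),
    h5, one_pow, mul_one] at h3
  exact mul_right_cancel₀ (Polynomial.leadingCoeff_ne_zero.2 hq) (h3.trans (one_mul _).symm)

/-- the polynomial functions on the natural numbers -/
private noncomputable def pf99 : Subring (ℕ → ℂ) :=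
  (RingHom.pi (fun j : ℕ => Polynomial.evalRingHom (j : ℂ))).range

private theorem pf_mem99 {f : ℕ → ℂ} : f ∈ pf99 ↔ ∃ q : Polynomial ℂ, ∀ j : ℕ, q.eval (j : ℂ) = f j := by
  unfold pf99
  rw [RingHom.mem_range]
  constructor
  · rintro ⟨q, hq⟩
    exact ⟨q, fun j => congrFun hq j⟩
  · rintro ⟨q, hq⟩
    exact ⟨q, funext hq⟩

private theorem choose_mem99 (i : ℕ) : (fun j : ℕ => ((j.choose i : ℕ) : ℂ)) ∈ pf99 := by
  rw [pf_mem99]
  refine ⟨Polynomial.C ((i.factorial : ℂ)⁻¹) * descPochhammer ℂ i, fun j => ?_⟩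
  rw [Polynomial.eval_mul, Polynomial.eval_C, descPochhammer_eval_eq_descFactorial,
    Nat.descFactorial_eq_factorial_mul_choose]
  push_cast
  rw [← mul_assoc, inv_mul_cancel₀ (by exact_mod_cast i.factorial_ne_zero), one_mul]

private theorem const_mem99 (c : ℂ) : (fun _ : ℕ => c) ∈ pf99 := by
  rw [pf_mem99]
  exact ⟨Polynomial.C c, fun j => Polynomial.eval_C⟩

variable {n : Type*} [Fintype n] [DecidableEq n]

/-- the entries of the powers of a unipotent matrix -/
private theorem pow_mem99 {u : Matrix n n ℂ} (hu : IsNilpotent (u - 1)) (x y : n) : (fun j : ℕ => (u ^ j) x y) ∈ pf99 := by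
  obtain ⟨m, hm⟩ := hu
  have h1 : (fun j : ℕ => (u ^ j) x y) =
      ∑ i ∈ Finset.range m, (fun j : ℕ => ((j.choose i : ℕ) : ℂ)) * (fun _ : ℕ => ((u - 1) ^ i) x y) := by
    funext j
    have h2 : u ^ j = ∑ i ∈ Finset.range m, ((j.choose i : ℕ) : ℂ) • (u - 1) ^ i := by
      have h3 : u ^ j = ∑ i ∈ Finset.range (j + 1), ((j.choose i : ℕ) : ℂ) • (u - 1) ^ i := by
        conv_lhs => rw [show u = (u - 1) + 1 by abel, (Commute.one_right (u - 1)).add_pow]
        refine Finset.sum_congr rfl fun i _ => ?_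
        rw [one_pow, mul_one, ← Nat.cast_comm, ← nsmul_eq_mul, Nat.cast_smul_eq_nsmul]
      rw [h3]
      have h4 : ∀ a b : ℕ, (∀ i ∈ Finset.range b, i ∉ Finset.range a → ((j.choose i : ℕ) : ℂ) • (u - 1) ^ i = 0) →
          a ≤ b → ∑ i ∈ Finset.range a, ((j.choose i : ℕ) : ℂ) • (u - 1) ^ i =
            ∑ i ∈ Finset.range b, ((j.choose i : ℕ) : ℂ) • (u - 1) ^ i := by
        intro a b h5 h6
        exact Finset.sum_subset (Finset.range_mono h6) h5
      rcases le_total (j + 1) m with h | h
      · refine h4 _ _ (fun i _ h7 => ?_) h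
        rw [Finset.mem_range, not_lt] at h7
        rw [Nat.choose_eq_zero_of_lt (by omega), Nat.cast_zero, zero_smul]
      · refine (h4 _ _ (fun i _ h7 => ?_) h).symm
        rw [Finset.mem_range, not_lt] at h7
        rw [pow_eq_zero_of_le h7 hm, smul_zero]
    rw [Finset.sum_apply]
    simp only [Pi.mul_apply]
    rw [h2, Matrix.sum_apply]
    exact Finset.sum_congr rfl fun i _ => by rw [Matrix.smul_apply, smul_eq_mul]
  rw [h1]
  exact Subring.sum_mem _ fun i _ => Subring.mul_mem _ (choose_mem99 i) (const_mem99 _)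

/-- tensors under the powers of unipotent matrices -/
private theorem act_mem99 {κ : Type*} [Fintype κ] [DecidableEq κ] {U : κ → Matrix n n ℂ}
    (hU : ∀ k, IsNilpotent (U k - 1)) (t : (κ → n) → ℂ) (i : κ → n) :
    (fun j : ℕ => actF (fun k => U k ^ j) t i) ∈ pf99 := by
  have h1 : (fun j : ℕ => actF (fun k => U k ^ j) t i) =
      ∑ x : κ → n, (∏ k, fun j : ℕ => (U k ^ j) (i k) (x k)) * (fun _ : ℕ => t x) := by
    funext j
    rw [Finset.sum_apply]
    simp only [Pi.mul_apply, Finset.prod_apply]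
    rfl
  rw [h1]
  exact Subring.sum_mem _ fun x _ => Subring.mul_mem _ (Subring.prod_mem _ fun k _ => pow_mem99 (hU k) _ _)
    (const_mem99 _)

/-- diagonal matrices on the slots -/
private theorem act_diag99 {κ : Type*} [Fintype κ] [DecidableEq κ] (d : κ → n → ℂ) (t : (κ → n) → ℂ) (i : κ → n) :
    actF (fun k => Matrix.diagonal (d k)) t i = (∏ k, d k (i k)) * t i := by
  unfold actF
  rw [Finset.sum_eq_single i]
  · congr 1
    exact Finset.prod_congr rfl fun k _ => Matrix.diagonal_apply_eq _ _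
  · intro x _ hx
    obtain ⟨k, hk⟩ := Function.ne_iff.1 hx
    rw [Finset.prod_eq_zero (Finset.mem_univ k), zero_mul]
    exact Matrix.diagonal_apply_ne _ (Ne.symm hk)
  · intro h
    exact absurd (Finset.mem_univ i) h

private theorem dact_diag99 {κ : Type*} [Fintype κ] [DecidableEq κ] (d : κ → n → ℂ) (t : (κ → n) → ℂ) (i : κ → n) :
    dact (fun k => Matrix.diagonal (d k)) t i = (∑ k, d k (i k)) * t i := by
  unfold dact
  rw [Finset.sum_apply, Finset.sum_mul]
  refine Finset.sum_congr rfl fun k _ => ?_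
  have h1 : Function.update (fun _ => (1 : Matrix n n ℂ)) k (Matrix.diagonal (d k)) =
      fun x => Matrix.diagonal (if x = k then d k else fun _ => 1) := by
    funext x
    by_cases h : x = k
    · subst h
      rw [Function.update_self, if_pos rfl]
    · rw [Function.update_of_ne h, if_neg h]
      rfl
  rw [h1, act_diag99]
  congr 1
  rw [Finset.prod_eq_single k]
  · rw [if_pos rfl]
  · intro x _ hx
    rw [if_neg hx]
  · intro h
    exact absurd (Finset.mem_univ k) h

/-- Jordan decomposition in an eigenbasis of the semisimple part -/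
private theorem exists_jordan99 (g : GL n ℂ) : ∃ (P Pi u : Matrix n n ℂ) (μ : n → ℂˣ), P * Pi = 1 ∧ Pi * P = 1 ∧
    Pi * (g : Matrix n n ℂ) * P = Matrix.diagonal (fun i => (μ i : ℂ)) * u ∧
    Matrix.diagonal (fun i => (μ i : ℂ)) * u = u * Matrix.diagonal (fun i => (μ i : ℂ)) ∧ IsNilpotent (u - 1) := by
  set f : (Module.End ℂ (n → ℂ))ˣ := Units.map (Matrix.toLinAlgEquiv' (R := ℂ) (n := n)).toMonoidHom g with hf
  obtain ⟨m, S, U, hJ⟩ := Pool.Agent.Helper40.ZO.exists_JC f
  obtain ⟨p, hp1, hp2⟩ := hJ.ss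
  have hS : S.IsSemisimple := Module.End.isSemisimple_of_squarefree_aeval_eq_zero hp1 hp2
  have hint : DirectSum.IsInternal (fun μ : ℂ => S.eigenspace μ) :=
    (DirectSum.isInternal_submodule_iff_iSupIndep_and_iSup_eq_top _).2
      ⟨S.eigenspaces_iSupIndep, hS.iSup_eigenspace_eq_top⟩
  let b0 := hint.collectedBasis (fun μ => Module.finBasis ℂ (S.eigenspace μ))
  let e := b0.indexEquiv (Pi.basisFun ℂ n)
  let b : Module.Basis n ℂ (n → ℂ) := b0.reindex e
  have hb : ∀ i, S (b i) = (e.symm i).1 • b i := by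
    intro i
    have h1 : b i ∈ S.eigenspace (e.symm i).1 := by
      change b0.reindex e i ∈ _
      rw [Module.Basis.reindex_apply]
      exact hint.collectedBasis_mem _ _
    exact Module.End.mem_eigenspace_iff.1 h1
  have hne : ∀ i, (e.symm i).1 ≠ 0 := by
    intro i h0
    have h1 := hb i
    rw [h0, zero_smul] at h1
    have h2 : (f : Module.End ℂ (n → ℂ)) (b i) = 0 := by
      rw [hJ.mul, hJ.comm, Module.End.mul_apply, h1, map_zero]
    have h3 : ((f⁻¹ : (Module.End ℂ (n → ℂ))ˣ) : Module.End ℂ (n → ℂ)) ((f : Module.End ℂ (n → ℂ)) (b i)) = b i := by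
      rw [← Module.End.mul_apply, ← Units.val_mul, inv_mul_cancel, Units.val_one, Module.End.one_apply]
    rw [h2, map_zero] at h3
    exact b.ne_zero i h3.symm
  let A := LinearMap.toMatrixAlgEquiv b
  have hA : ∀ L : Module.End ℂ (n → ℂ), A L = LinearMap.toMatrix b b L := fun L => rfl
  have hD : A S = Matrix.diagonal (fun i => (e.symm i).1) := by
    ext x y
    rw [hA, LinearMap.toMatrix_apply, hb, map_smul, Finsupp.smul_apply, smul_eq_mul, b.repr_self, Matrix.diagonal_apply,
      Finsupp.single_apply]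
    by_cases h : x = y
    · subst h
      rw [if_pos rfl, if_pos rfl, mul_one]
    · rw [if_neg h, if_neg (Ne.symm h), mul_zero]
  refine ⟨(Pi.basisFun ℂ n).toMatrix b, b.toMatrix (Pi.basisFun ℂ n), A U, fun i => Units.mk0 _ (hne i),
    Module.Basis.toMatrix_mul_toMatrix_flip _ _, Module.Basis.toMatrix_mul_toMatrix_flip _ _, ?_, ?_, ?_⟩
  · have h1 : A (f : Module.End ℂ (n → ℂ)) = b.toMatrix (Pi.basisFun ℂ n) * (g : Matrix n n ℂ) *
        (Pi.basisFun ℂ n).toMatrix b := by
      rw [hA, ← basis_toMatrix_mul_linearMap_toMatrix_mul_basis_toMatrix b (Pi.basisFun ℂ n) b (Pi.basisFun ℂ n)]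
      congr 2
      change LinearMap.toMatrix' (Matrix.toLin' (g : Matrix n n ℂ)) = _
      exact LinearMap.toMatrix'_toLin' _
    rw [← h1, hJ.mul, map_mul, hD]
    rfl
  · have h1 : A (S * U) = A (U * S) := congrArg A hJ.comm
    rw [map_mul, map_mul, hD] at h1
    exact h1
  · refine ⟨m, ?_⟩
    rw [← map_one A, ← map_sub, ← map_pow, hJ.nil, map_zero]

private theorem core99 {κ : Type*} [Fintype κ] [DecidableEq κ] {Gk Pk Qk Uk : κ → Matrix n n ℂ} {dk : κ → n → ℂˣ}
    (hPQ : ∀ k, Pk k * Qk k = 1) (hQP : ∀ k, Qk k * Pk k = 1)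
    (hG : ∀ k, Qk k * Gk k * Pk k = Matrix.diagonal (fun x => (dk k x : ℂ)) * Uk k)
    (hc : ∀ k, Commute (Matrix.diagonal (fun x => (dk k x : ℂ))) (Uk k)) (hU : ∀ k, IsNilpotent (Uk k - 1))
    {N : ℕ} {t : (κ → n) → ℂ} (ht : actF (fun k => Gk k ^ N) t = t) {i : κ → n} (hi : actF Qk t i ≠ 0) :
    (∏ k, dk k (i k)) ^ N = 1 := by
  set t' := actF Qk t with ht'
  have h1 : ∀ j : ℕ, actF (fun k => Gk k ^ (N * j)) t = t := by
    intro j
    induction j with
    | zero =>
      simp only [mul_zero, pow_zero]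
      exact actF_one t
    | succ j ih =>
      have h2 : (fun k => Gk k ^ (N * (j + 1))) = fun k => Gk k ^ (N * j) * Gk k ^ N := by
        funext k
        rw [mul_add, mul_one, pow_add]
      rw [h2, ← actF_mul, ht, ih]
  have h2 : ∀ (k : κ) (M : ℕ), Qk k * Gk k ^ M * Pk k =
      Matrix.diagonal (fun x => (dk k x : ℂ) ^ M) * Uk k ^ M := by
    intro k M
    have h3 : Qk k * Gk k ^ M * Pk k = (Qk k * Gk k * Pk k) ^ M := by
      induction M with
      | zero => rw [pow_zero, pow_zero, mul_one, hQP]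
      | succ M ih =>
        rw [pow_succ, pow_succ, ← ih]
        calc Qk k * (Gk k ^ M * Gk k) * Pk k = Qk k * Gk k ^ M * 1 * Gk k * Pk k := by
              simp only [mul_assoc, one_mul]
          _ = Qk k * Gk k ^ M * (Pk k * Qk k) * Gk k * Pk k := by rw [hPQ]
          _ = _ := by simp only [mul_assoc]
    rw [h3, hG, (hc k).mul_pow, Matrix.diagonal_pow]
    rfl
  have h4 : ∀ j : ℕ, ((∏ k, (dk k (i k) : ℂ)) ^ N) ^ j * actF (fun k => Uk k ^ (N * j)) t' i = t' i := by
    intro j
    have h5 : actF (fun k => Matrix.diagonal (fun x => (dk k x : ℂ) ^ (N * j))) (actF (fun k => Uk k ^ (N * j)) t') =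
        t' := by
      rw [actF_mul, ht']
      have h6 : (fun k => Matrix.diagonal (fun x => (dk k x : ℂ) ^ (N * j)) * Uk k ^ (N * j)) =
          fun k => (Qk k * Gk k ^ (N * j)) * Pk k := by
        funext k
        rw [h2]
      rw [h6, actF_mul]
      have h7 : (fun k => Qk k * Gk k ^ (N * j) * Pk k * Qk k) = fun k => Qk k * Gk k ^ (N * j) := by
        funext k
        rw [mul_assoc _ (Pk k), hPQ, mul_one]
      rw [h7, ← actF_mul, h1]
    have h8 := congrFun h5 i
    rw [act_diag99, Finset.prod_pow, pow_mul] at h8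
    exact h8
  obtain ⟨q, hq⟩ := pf_mem99.1 (act_mem99 hU t' i)
  have h9 := poly_exp99 (q := q.comp (Polynomial.C (N : ℂ) * Polynomial.X)) (c := (∏ k, (dk k (i k) : ℂ)) ^ N)
    (τ := t' i) hi (fun j => by
      rw [Polynomial.eval_comp, Polynomial.eval_mul, Polynomial.eval_C, Polynomial.eval_X, ← Nat.cast_mul, hq]
      exact h4 j)
  apply Units.ext
  rw [Units.val_pow_eq_pow_val, Units.coe_prod, h9, Units.val_one]

end aux

variable {n : Type*} [Fintype n] [DecidableEq n]

/-- an eigenvalue that is no root of unity -/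
theorem log_ss {g : GL n ℂ} {l : ℂ} (hl : Module.End.HasEigenvalue (Matrix.toLin' (g : Matrix n n ℂ)) l)
    (hne : ∀ N : ℕ, 0 < N → l ^ N ≠ 1) :
    ∃ X : Matrix n n ℂ, X ≠ 0 ∧ ∀ (a b : ℕ) (t : (Fin a ⊕ Fin b → n) → ℂ) (N : ℕ), 0 < N →
      actF (slot a b ((g ^ N : GL n ℂ) : Matrix n n ℂ) (((g ^ N)⁻¹ : GL n ℂ) : Matrix n n ℂ)) t = t →
      dL a b t X = 0 := by
  obtain ⟨v, hv⟩ := hl.exists_hasEigenvector
  have hv1 : (g : Matrix n n ℂ) *ᵥ v = l • v := by
    have := Module.End.mem_eigenspace_iff.1 hv.1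
    rwa [Matrix.toLin'_apply] at this
  have hgi : ((g⁻¹ : GL n ℂ) : Matrix n n ℂ) * (g : Matrix n n ℂ) = 1 := by
    rw [← Units.val_mul, inv_mul_cancel, Units.val_one]
  have hgi' : (g : Matrix n n ℂ) * ((g⁻¹ : GL n ℂ) : Matrix n n ℂ) = 1 := by
    rw [← Units.val_mul, mul_inv_cancel, Units.val_one]
  have hl0 : l ≠ 0 := by
    rintro rfl
    have h1 : ((g⁻¹ : GL n ℂ) : Matrix n n ℂ) *ᵥ ((g : Matrix n n ℂ) *ᵥ v) = v := by
      rw [Matrix.mulVec_mulVec, hgi, Matrix.one_mulVec]
    rw [hv1, zero_smul, Matrix.mulVec_zero] at h1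
    exact hv.2 h1.symm
  obtain ⟨φ, hφ⟩ := exists_phi99 hl0 hne
  obtain ⟨P, Pi, u, μ, hPQ, hQP, hg, hcu, hun⟩ := exists_jordan99 g
  set D : Matrix n n ℂ := Matrix.diagonal (fun i => (μ i : ℂ)) with hD
  set D' : Matrix n n ℂ := Matrix.diagonal (fun i => (((μ i)⁻¹ : ℂˣ) : ℂ)) with hD'
  have hDD : D * D' = 1 := by
    rw [hD, hD', Matrix.diagonal_mul_diagonal, ← Matrix.diagonal_one]
    congr 1
    funext i
    rw [← Units.val_mul, mul_inv_cancel, Units.val_one]
  have hDD' : D' * D = 1 := by
    rw [hD, hD', Matrix.diagonal_mul_diagonal, ← Matrix.diagonal_one]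
    congr 1
    funext i
    rw [← Units.val_mul, inv_mul_cancel, Units.val_one]
  -- the inverse of u
  have huu : IsUnit u := by
    have h1 : u = 1 + (u - 1) := by abel
    rw [h1]
    exact hun.isUnit_one_add
  obtain ⟨u', hu1, hu2⟩ := huu.exists_right_inv.imp fun u' h => (⟨h, mul_eq_one_comm.1 h⟩ : u * u' = 1 ∧ u' * u = 1)
  have hun' : IsNilpotent (u' - 1) := by
    have h1 : u' - 1 = (u - 1) * (-u') := by
      rw [mul_neg, sub_mul, hu1, one_mul]
      abel
    rw [h1]
    refine Commute.isNilpotent_mul_right ?_ hun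
    refine Commute.neg_right ?_
    change (u - 1) * u' = u' * (u - 1)
    rw [sub_mul, mul_sub, hu1, hu2, one_mul, mul_one]
  set d : n → ℂ := fun i => ((φ (Additive.ofMul (μ i)) : ℚ) : ℂ) with hd
  refine ⟨P * Matrix.diagonal d * Pi, ?_, ?_⟩
  · intro h0
    have h1 : Matrix.diagonal d = 0 := by
      calc Matrix.diagonal d = (Pi * P) * Matrix.diagonal d * (Pi * P) := by rw [hQP, one_mul, mul_one]
        _ = Pi * (P * Matrix.diagonal d * Pi) * P := by simp only [mul_assoc]
        _ = 0 := by rw [h0, mul_zero, zero_mul]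
    have h2 : ∃ i, (μ i : ℂ) = l := by
      by_contra hcon
      push Not at hcon
      have h3 : IsUnit (Matrix.diagonal (fun i => (μ i : ℂ) - l)) := by
        rw [Matrix.isUnit_diagonal, _root_.Pi.isUnit_iff]
        exact fun i => isUnit_iff_ne_zero.2 (sub_ne_zero.2 (hcon i))
      have h4 : Matrix.diagonal (fun i => (μ i : ℂ) - l) = D - l • (1 : Matrix n n ℂ) := by
        rw [Matrix.smul_one_eq_diagonal, hD, Matrix.diagonal_sub]
      rw [h4] at h3
      have hDu : Commute D (u - 1) := (show Commute D u from hcu).sub_right (Commute.one_right _)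
      have h5 : IsNilpotent (D * (u - 1)) := Commute.isNilpotent_mul_left hDu hun
      have h6 : IsUnit (D - l • (1 : Matrix n n ℂ) + D * (u - 1)) := by
        refine IsNilpotent.isUnit_add_left_of_commute h5 h3 ?_
        refine Commute.sub_right ?_ ((Commute.one_right _).smul_right l)
        exact (Commute.mul_left (Commute.refl D) hDu.symm)
      have h7 : D - l • (1 : Matrix n n ℂ) + D * (u - 1) = Pi * ((g : Matrix n n ℂ) - l • 1) * P := by
        rw [mul_sub D, mul_one, mul_sub Pi, sub_mul, hg, mul_smul_comm, mul_one, smul_mul_assoc, hQP]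
        abel
      rw [h7] at h6
      obtain ⟨Y, hY⟩ := h6.exists_left_inv
      have h8 : (Pi * ((g : Matrix n n ℂ) - l • 1) * P) *ᵥ (Pi *ᵥ v) = 0 := by
        rw [Matrix.mulVec_mulVec, mul_assoc _ P Pi, hPQ, mul_one, ← Matrix.mulVec_mulVec, Matrix.sub_mulVec, hv1,
          Matrix.smul_mulVec, Matrix.one_mulVec, sub_self, Matrix.mulVec_zero]
      have h9 : Pi *ᵥ v = 0 := by
        have := congrArg (fun w => Y *ᵥ w) h8
        simp only [Matrix.mulVec_mulVec, Matrix.mulVec_zero] at this
        rwa [← mul_assoc Y, hY, one_mul] at this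
      have h10 : v = 0 := by
        have := congrArg (fun w => P *ᵥ w) h9
        simp only [Matrix.mulVec_mulVec, Matrix.mulVec_zero] at this
        rwa [hPQ, Matrix.one_mulVec] at this
      exact hv.2 h10
    obtain ⟨i, hi⟩ := h2
    have h3 : d i = 0 := by
      have := congrFun (congrFun h1 i) i
      rwa [Matrix.diagonal_apply_eq, Matrix.zero_apply] at this
    rw [hd] at h3
    have h4 : μ i = Units.mk0 l hl0 := Units.ext hi
    simp only [h4] at h3
    exact hφ (by exact_mod_cast h3)
  · intro a b t N hN ht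
    set Qk := slot a b Pi P with hQk
    set Pk := slot a b P Pi with hPk
    have hPQk : ∀ k, Pk k * Qk k = 1 := by
      rintro (k | k)
      · exact hPQ
      · change Piᵀ * Pᵀ = 1
        rw [← Matrix.transpose_mul, hPQ, Matrix.transpose_one]
    have hQPk : ∀ k, Qk k * Pk k = 1 := by
      rintro (k | k)
      · exact hQP
      · change Pᵀ * Piᵀ = 1
        rw [← Matrix.transpose_mul, hQP, Matrix.transpose_one]
    have hX : dL a b t (P * Matrix.diagonal d * Pi) = actF Pk (dact (lslot a b (Matrix.diagonal d)) (actF Qk t)) := by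
      rw [dL_apply, ← dact_conj Pk Qk hPQk]
      congr 1
      funext k
      rcases k with k | k
      · rfl
      · change -(P * Matrix.diagonal d * Pi)ᵀ = Piᵀ * -(Matrix.diagonal d)ᵀ * Pᵀ
        rw [Matrix.transpose_mul, Matrix.transpose_mul, mul_neg, neg_mul, mul_assoc]
    rw [hX]
    suffices h : dact (lslot a b (Matrix.diagonal d)) (actF Qk t) = 0 by rw [h, actF_zero]
    funext i
    by_cases hi : actF Qk t i = 0
    · have h1 : lslot a b (Matrix.diagonal d) = fun k => Matrix.diagonal
          ((Sum.elim (fun _ => d) (fun _ => fun x => -d x) : Fin a ⊕ Fin b → n → ℂ) k) := by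
        funext k
        rcases k with k | k
        · rfl
        · change -(Matrix.diagonal d)ᵀ = Matrix.diagonal (fun x => -d x)
          rw [Matrix.diagonal_transpose, Matrix.diagonal_neg]
      rw [h1, dact_diag99, hi, mul_zero]
      rfl
    · have h1 : lslot a b (Matrix.diagonal d) = fun k => Matrix.diagonal
          ((Sum.elim (fun _ => d) (fun _ => fun x => -d x) : Fin a ⊕ Fin b → n → ℂ) k) := by
        funext k
        rcases k with k | k
        · rfl
        · change -(Matrix.diagonal d)ᵀ = Matrix.diagonal (fun x => -d x)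
          rw [Matrix.diagonal_transpose, Matrix.diagonal_neg]
      set dk : Fin a ⊕ Fin b → n → ℂˣ := Sum.elim (fun _ => μ) (fun _ => fun x => (μ x)⁻¹) with hdk
      have h2 := core99 (Gk := slot a b (g : Matrix n n ℂ) ((g⁻¹ : GL n ℂ) : Matrix n n ℂ)) (Pk := Pk) (Qk := Qk)
        (Uk := slot a b u u') (dk := dk) hPQk hQPk (by
          rintro (k | k)
          · exact hg
          · change Pᵀ * (((g⁻¹ : GL n ℂ) : Matrix n n ℂ))ᵀ * Piᵀ = D' * u'ᵀ
            have h3 : Pi * ((g⁻¹ : GL n ℂ) : Matrix n n ℂ) * P = u' * D' := by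
              have h4 : (Pi * (g : Matrix n n ℂ) * P) * (Pi * ((g⁻¹ : GL n ℂ) : Matrix n n ℂ) * P) = 1 := by
                calc (Pi * (g : Matrix n n ℂ) * P) * (Pi * ((g⁻¹ : GL n ℂ) : Matrix n n ℂ) * P) =
                      Pi * (g : Matrix n n ℂ) * (P * Pi) * ((g⁻¹ : GL n ℂ) : Matrix n n ℂ) * P := by
                      simp only [mul_assoc]
                  _ = Pi * ((g : Matrix n n ℂ) * ((g⁻¹ : GL n ℂ) : Matrix n n ℂ)) * P := by
                      rw [hPQ, mul_one]; simp only [mul_assoc]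
                  _ = 1 := by rw [hgi', mul_one, hQP]
              rw [hg] at h4
              calc Pi * ((g⁻¹ : GL n ℂ) : Matrix n n ℂ) * P =
                    u' * (D' * D) * u * (Pi * ((g⁻¹ : GL n ℂ) : Matrix n n ℂ) * P) := by
                    rw [hDD', mul_one, hu2, one_mul]
                _ = u' * D' * ((D * u) * (Pi * ((g⁻¹ : GL n ℂ) : Matrix n n ℂ) * P)) := by simp only [mul_assoc]
                _ = u' * D' := by rw [h4, mul_one]
            have h5 := congrArg Matrix.transpose h3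
            rw [Matrix.transpose_mul, Matrix.transpose_mul, Matrix.transpose_mul] at h5
            rw [mul_assoc, h5, hD', Matrix.diagonal_transpose])
        (by
          rintro (k | k)
          · exact hcu
          · change D' * u'ᵀ = u'ᵀ * D'
            have h3 : D' * u' = u' * D' := by
              calc D' * u' = u' * (u * D') * u' := by
                    rw [← mul_assoc u' u, hu2, one_mul]
                _ = u' * (D' * (D * u) * D') * u' := by rw [← mul_assoc D' D u, hDD', one_mul]
                _ = u' * (D' * (u * D) * D') * u' := by rw [hcu]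
                _ = u' * D' * u * (D * D') * u' := by simp only [mul_assoc]
                _ = u' * D' * (u * u') := by rw [hDD, mul_one, mul_assoc]
                _ = u' * D' := by rw [hu1, mul_one]
            have h5 := congrArg Matrix.transpose h3
            rw [Matrix.transpose_mul, Matrix.transpose_mul] at h5
            rw [hD', Matrix.diagonal_transpose] at h5
            exact h5.symm)
        (by
          rintro (k | k)
          · exact hun
          · obtain ⟨m, hm⟩ := hun'
            refine ⟨m, ?_⟩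
            change (u'ᵀ - 1) ^ m = 0
            rw [← Matrix.transpose_one, ← Matrix.transpose_sub, ← Matrix.transpose_pow, hm, Matrix.transpose_zero])
        (N := N) (t := t) (by
          have h3 : (fun k => slot a b (g : Matrix n n ℂ) ((g⁻¹ : GL n ℂ) : Matrix n n ℂ) k ^ N) =
              slot a b ((g ^ N : GL n ℂ) : Matrix n n ℂ) (((g ^ N)⁻¹ : GL n ℂ) : Matrix n n ℂ) := by
            funext k
            rcases k with k | k
            · exact (Units.val_pow_eq_pow_val g N).symm
            · change ((((g⁻¹ : GL n ℂ) : Matrix n n ℂ))ᵀ) ^ N = ((((g ^ N)⁻¹ : GL n ℂ) : Matrix n n ℂ))ᵀ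
              rw [← inv_pow, Units.val_pow_eq_pow_val, Matrix.transpose_pow]
          rw [h3]
          exact ht) (i := i) hi
      rw [h1, dact_diag99]
      have h6 : φ (Additive.ofMul (∏ k, dk k (i k))) = 0 := by
        have h7 : (N : ℕ) • φ (Additive.ofMul (∏ k, dk k (i k))) = 0 := by
          rw [← map_nsmul, ← ofMul_pow, h2, ofMul_one, map_zero]
        rcases smul_eq_zero.1 h7 with h8 | h8
        · omega
        · exact h8
      have h9 : ∑ k, (Sum.elim (fun _ => d) (fun _ => fun x => -d x) : Fin a ⊕ Fin b → n → ℂ) k (i k) =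
          ((φ (Additive.ofMul (∏ k, dk k (i k))) : ℚ) : ℂ) := by
        rw [ofMul_prod, map_sum, Rat.cast_sum]
        refine Finset.sum_congr rfl fun k _ => ?_
        rcases k with k | k
        · rfl
        · change -d _ = ((φ (Additive.ofMul ((μ _)⁻¹)) : ℚ) : ℂ)
          rw [ofMul_inv, map_neg, Rat.cast_neg]
      rw [h9, h6, Rat.cast_zero, zero_mul]
      rfl

end MH
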